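import Pool.Agent.Helper8.SE.Sheet

/-! Row HB: the distance to the span of finitely many functionals. -/

set_option autoImplicit false

open Set Filter Topology

namespace Pool.Agent.Helper1.SE

open Pool.Agent.Helper8.SE

theorem stHB.{u} : ST_HB.{u} := by
  intro X _ _ g j f
  set S : Set ℝ := {r | ∃ x : X, ‖x‖ ≤ 1 ∧ (∀ i ≤ j, g i x = 0) ∧ r = f x} with hS
  have hP : pj g j f = sSup S := rfl
  have hbdd : BddAbove S := by
    refine ⟨‖f‖, ?_⟩
    rintro r ⟨x, hx, -, rfl⟩
    calc f x ≤ ‖f x‖ := Real.le_norm_self _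
      _ ≤ ‖f‖ * ‖x‖ := f.le_opNorm x
      _ ≤ ‖f‖ * 1 := mul_le_mul_of_nonneg_left hx (norm_nonneg _)
      _ = ‖f‖ := mul_one _
  have h0 : 0 ≤ sSup S := le_csSup hbdd ⟨0, by simp, fun i _ => by simp, by simp⟩
  let p : Submodule ℝ X := ⨅ i : Fin (j + 1), LinearMap.ker (g i : X →ₗ[ℝ] ℝ)
  have hp : ∀ x, x ∈ p ↔ ∀ i ≤ j, g i x = 0 := by
    intro x
    simp only [p, Submodule.mem_iInf, LinearMap.mem_ker]
    constructor
    · intro h i hi
      exact h ⟨i, Nat.lt_succ_of_le hi⟩
    · intro h i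
      exact h i (Nat.le_of_lt_succ i.2)
  obtain ⟨F, hF1, hF2⟩ := exists_extension_norm_eq p (f.comp p.subtypeL)
  have hle : ‖F‖ ≤ sSup S := by
    rw [hF2]
    refine ContinuousLinearMap.opNorm_le_bound _ h0 fun x => ?_
    rcases eq_or_ne x 0 with rfl | hx
    · simp
    · have hn : 0 < ‖(x : X)‖ := by
        rw [norm_pos_iff]
        intro h
        exact hx (Subtype.ext h)
      have hx' := (hp x).1 x.2
      have key : ∀ s : ℝ, |s| = 1 → s * f x ≤ sSup S * ‖(x : X)‖ := by
        intro s hs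
        have h1 : f ((s * ‖(x : X)‖⁻¹) • (x : X)) ≤ sSup S := by
          refine le_csSup hbdd ⟨(s * ‖(x : X)‖⁻¹) • (x : X), ?_, ?_, rfl⟩
          · rw [norm_smul, norm_mul, norm_inv, norm_norm, Real.norm_eq_abs, hs, one_mul,
              inv_mul_cancel₀ hn.ne']
          · intro i hi
            rw [map_smul, hx' i hi, smul_zero]
        rw [map_smul, smul_eq_mul] at h1
        calc s * f x = (s * ‖(x : X)‖⁻¹ * f x) * ‖(x : X)‖ := by
              field_simp
          _ ≤ sSup S * ‖(x : X)‖ := mul_le_mul_of_nonneg_right h1 hn.le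
      have e : (f.comp p.subtypeL) x = f x := rfl
      rw [e, Real.norm_eq_abs, abs_le]
      have k1 := key 1 (by simp)
      have k2 := key (-1) (by simp)
      have e2 : ‖x‖ = ‖(x : X)‖ := rfl
      rw [e2]
      constructor
      · linarith
      · linarith
  have hker : ⨅ i : Fin (j + 1), LinearMap.ker (g i : X →ₗ[ℝ] ℝ) ≤
      LinearMap.ker ((f - F : StrongDual ℝ X) : X →ₗ[ℝ] ℝ) := by
    intro x hx
    have h1 := hF1 ⟨x, hx⟩
    rw [LinearMap.mem_ker]
    have e : (f.comp p.subtypeL) ⟨x, hx⟩ = f x := rfl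
    rw [e] at h1
    simp only [ContinuousLinearMap.coe_coe, ContinuousLinearMap.sub_apply]
    rw [← h1]
    simp
  have hm := mem_span_of_iInf_ker_le_ker hker
  rw [Submodule.mem_span_range_iff_exists_fun] at hm
  obtain ⟨c, hc⟩ := hm
  refine ⟨f - F, ?_, ?_⟩
  · have e : f - F = ∑ i : Fin (j + 1), c i • g i := by
      ext x
      have := congrArg (fun L : X →ₗ[ℝ] ℝ => L x) hc
      simp only [LinearMap.sum_apply, LinearMap.smul_apply, ContinuousLinearMap.coe_coe] at this
      rw [← this]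
      simp
    rw [e]
    refine Submodule.sum_mem _ fun i _ => Submodule.smul_mem _ _ (Submodule.subset_span ?_)
    exact ⟨i, Nat.le_of_lt_succ i.2, rfl⟩
  · rw [sub_sub_cancel, hP]
    exact hle

end Pool.Agent.Helper1.SE
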